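import Pool.Agent.Q44.JQ.StmC

/-!
# Project JQ: the classes at a prime of `T`
-/

set_option autoImplicit false
set_option linter.unusedVariables false

namespace Pool.Agent.Q129.JQ

open Finset Q44.JQ
open Pool.Agent.TH344.JG (LocJ SelJ PR df sJ)
open Pool.Agent.Y723.PT (tw dc LG locJ_iff df_tw sJ_tw card_oth)
open Q44.BN (jv jv_prime)
open Q44.TI (ch ch_zero ch_mul)
open scoped Classical

theorem jv_rec_aux {p m : ℕ} (hp : Odd p) (hm : Odd m) (hc : Nat.Coprime p m) :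
    jv (m : ℤ) p = jv (p : ℤ) m + (if p % 4 = 1 then 0 else 1) * jv (-1) m := by
  have hm2 := Nat.odd_iff.1 hm
  have hp2 := Nat.odd_iff.1 hp
  have hneg : jacobiSym (-1) m = if m % 4 = 1 then 1 else -1 := by
    rw [jacobiSym.at_neg_one hm]
    split_ifs with h
    · exact ZMod.χ₄_nat_one_mod_four h
    · exact ZMod.χ₄_nat_three_mod_four (by omega)
  have hpm : jacobiSym (p : ℤ) m = 1 ∨ jacobiSym (p : ℤ) m = -1 :=
    jacobiSym.eq_one_or_neg_one (by simpa using hc)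
  unfold jv
  rw [hneg]
  by_cases h1 : p % 4 = 1
  · rw [jacobiSym.quadratic_reciprocity_one_mod_four' hm h1, if_pos h1, zero_mul, add_zero]
  · rw [if_neg h1, one_mul]
    by_cases h2 : m % 4 = 1
    · rw [jacobiSym.quadratic_reciprocity_one_mod_four h2 hp, if_pos h2, if_pos rfl, add_zero]
    · rw [jacobiSym.quadratic_reciprocity_three_mod_four (by omega) (by omega), if_neg h2]
      rcases hpm with h | h <;> rw [h]
      · norm_num
      · norm_num
        decide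

theorem ch_prod {p : ℕ} [Fact p.Prime] {ι : Type} (s : Finset ι) (f : ι → ZMod p)
    (hf : ∀ i ∈ s, f i ≠ 0) : ch (∏ i ∈ s, f i) = ∑ i ∈ s, ch (f i) := by
  induction s using Finset.induction_on with
  | empty =>
    rw [prod_empty, sum_empty]
    exact ch_zero.2 IsSquare.one
  | insert i s hi ih =>
    rw [prod_insert hi, sum_insert hi, ch_mul (hf i (mem_insert_self i s))
      (prod_ne_zero_iff.2 fun j hj => hf j (mem_insert_of_mem hj)),
      ih fun j hj => hf j (mem_insert_of_mem hj)]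

/-- squarefree part -/
theorem sqf_part {m : ℕ} (hm : m ≠ 0) : ∃ b s : ℕ, m = b ^ 2 * s ∧ Squarefree s ∧ b ≠ 0 := by
  obtain ⟨s, b, h1, h2⟩ := Nat.sq_mul_squarefree m
  refine ⟨b, s, h1.symm, h2, ?_⟩
  rintro rfl
  apply hm
  rw [← h1]
  ring

theorem zc_ne {p : ℕ} {z : ℤ} (h : ¬ (p : ℤ) ∣ z) : ((z : ℤ) : ZMod p) ≠ 0 := by
  rwa [Ne, ZMod.intCast_zmod_eq_zero_iff_dvd]

section

variable {T : Finset ℕ}

theorem cop_ne_zero (h2 : 2 ∈ T) {m : ℕ} (hm : Cop T m) : m ≠ 0 := by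
  rintro rfl
  exact hm 2 h2 (dvd_zero 2)

theorem cop_odd (h2 : 2 ∈ T) {m : ℕ} (hm : Cop T m) : Odd m := by
  rw [← Nat.not_even_iff_odd]
  intro he
  exact hm 2 h2 he.two_dvd

/-- reciprocity -/
theorem ch_rc (hT : ∀ p ∈ T, p.Prime) (h2 : 2 ∈ T) (p : T) (hp2 : (p : ℕ) ≠ 2) {m : ℕ}
    (hm : Cop T m) : ch (((m : ℕ) : ℤ) : ZMod p) = rc p (lbl T m) := by
  have hp := hT p p.2
  have hd : ¬ ((p : ℕ) : ℤ) ∣ ((m : ℕ) : ℤ) := by
    intro h
    exact hm p p.2 (by exact_mod_cast h)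
  rw [← jv_prime hp (zc_ne hd), jv_rec_aux (hp.odd_of_ne_two hp2) (cop_odd h2 hm)
    ((Nat.Prime.coprime_iff_not_dvd hp).2 (hm p p.2))]
  rfl

/-- the part prime to `p` of the integer with given class -/
noncomputable def Uq (p : T) (γ : Option T → ZMod 2) : ℤ :=
  ∏ o ∈ univ.erase (some p), if γ o = 0 then 1 else tv o

theorem Uo_split (p : T) (γ : Option T → ZMod 2) :
    Uo γ = ((p : ℕ) : ℤ) ^ (γ (some p)).val * Uq p γ := by
  unfold Uo Uq
  rw [← mul_prod_erase univ _ (mem_univ (some p))]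
  congr 1
  have h : ∀ x : ZMod 2, x = 0 ∨ x = 1 := by decide
  rcases h (γ (some p)) with h0 | h0
  · rw [h0, if_pos rfl, ZMod.val_zero, pow_zero]
  · rw [h0, if_neg (by decide)]
    have : (1 : ZMod 2).val = 1 := rfl
    rw [this, pow_one]
    rfl

theorem tv_ndvd (hT : ∀ p ∈ T, p.Prime) (p : T) {o : Option T} (ho : o ≠ some p) :
    ¬ ((p : ℕ) : ℤ) ∣ tv o := by
  have hp := hT p p.2
  cases o with
  | none =>
    intro h
    have h1 : ((p : ℕ) : ℤ) ∣ 1 := by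
      have : (tv (none : Option T)) = -1 := rfl
      rw [this] at h
      exact (dvd_neg.1 h)
    have h2 := Int.eq_one_of_dvd_one (by positivity) h1
    exact hp.one_lt.ne' (by exact_mod_cast h2)
  | some t =>
    intro h
    have h1 : (p : ℕ) ∣ (t : ℕ) := by
      have : tv (some t) = ((t : ℕ) : ℤ) := rfl
      rw [this] at h
      exact_mod_cast h
    have h2 := (Nat.prime_dvd_prime_iff_eq hp (hT t t.2)).1 h1
    exact ho (congrArg some (Subtype.ext h2.symm))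

theorem fac_ndvd (hT : ∀ p ∈ T, p.Prime) (p : T) (γ : Option T → ZMod 2) {o : Option T}
    (ho : o ≠ some p) : ¬ ((p : ℕ) : ℤ) ∣ (if γ o = 0 then 1 else tv o) := by
  split_ifs with h
  · intro h1
    have h2 := Int.eq_one_of_dvd_one (by positivity) h1
    exact (hT p p.2).one_lt.ne' (by exact_mod_cast h2)
  · exact tv_ndvd hT p ho

theorem Uq_ndvd (hT : ∀ p ∈ T, p.Prime) (p : T) (γ : Option T → ZMod 2) :
    ¬ ((p : ℕ) : ℤ) ∣ Uq p γ := by
  unfold Uq
  rw [Prime.dvd_finsetProd_iff (Nat.prime_iff_prime_int.1 (hT p p.2))]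
  rintro ⟨o, ho, h⟩
  exact fac_ndvd hT p γ (mem_erase.1 ho).1 h

theorem ch_Uq (hT : ∀ p ∈ T, p.Prime) (p : T) (γ : Option T → ZMod 2) :
    ch ((Uq p γ : ℤ) : ZMod p) =
      ∑ o ∈ univ.erase (some p), ch ((tv o : ℤ) : ZMod p) * γ o := by
  haveI : Fact (p : ℕ).Prime := ⟨hT p p.2⟩
  unfold Uq
  rw [Int.cast_prod, ch_prod]
  · refine sum_congr rfl fun o _ => ?_
    have h : ∀ x : ZMod 2, x = 0 ∨ x = 1 := by decide
    rcases h (γ o) with h0 | h0
    · rw [h0, if_pos rfl, mul_zero, Int.cast_one]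
      exact ch_zero.2 IsSquare.one
    · rw [h0, if_neg (by decide), mul_one]
  · intro o ho
    exact zc_ne (fac_ndvd hT p γ (mem_erase.1 ho).1)

variable (c : Cr T)

/-- the unit part of the component -/
noncomputable def ut (p : T) (y : (Option T → c.V) × (Option T → c.V))
    (z : Fin (2 * c.g + 1) → ℕ) (i : Fin (2 * c.g + 1)) : ℤ :=
  Uq p (fun o => (y.1 o).1 i) * z i

theorem dz_eq (p : T) (y : (Option T → c.V) × (Option T → c.V))
    (z : Fin (2 * c.g + 1) → ℕ) (i : Fin (2 * c.g + 1)) :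
    c.dz y.1 z i = ((p : ℕ) : ℤ) ^ ((y.1 (some p)).1 i).val * ut c p y z i := by
  unfold Cr.dz ut
  rw [Uo_split p, mul_assoc]

theorem ut_ndvd (hT : ∀ p ∈ T, p.Prime) (p : T) (y : (Option T → c.V) × (Option T → c.V))
    (z : Fin (2 * c.g + 1) → ℕ) (i : Fin (2 * c.g + 1)) (hz : Cop T (z i)) :
    ¬ ((p : ℕ) : ℤ) ∣ ut c p y z i := by
  unfold ut
  intro h
  rcases (Nat.prime_iff_prime_int.1 (hT p p.2)).dvd_or_dvd h with h | h
  · exact Uq_ndvd hT p _ h
  · exact hz p p.2 (by exact_mod_cast h)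

theorem ch_ut (hT : ∀ p ∈ T, p.Prime) (h2 : 2 ∈ T) (p : T) (hp2 : (p : ℕ) ≠ 2)
    (y : (Option T → c.V) × (Option T → c.V))
    (z : Fin (2 * c.g + 1) → ℕ) (i : Fin (2 * c.g + 1)) (hz : Cop T (z i))
    (hl : lbl T (z i) = fun o => (y.2 o).1 i) :
    ch ((ut c p y z i : ℤ) : ZMod p) = c.un p y i := by
  haveI : Fact (p : ℕ).Prime := ⟨hT p p.2⟩
  have hd : ¬ ((p : ℕ) : ℤ) ∣ ((z i : ℕ) : ℤ) := by
    intro h
    exact hz p p.2 (by exact_mod_cast h)
  unfold ut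
  rw [Int.cast_mul, ch_mul (zc_ne (Uq_ndvd hT p _)) (zc_ne hd), ch_Uq hT, ch_rc hT h2 p hp2 hz, hl]
  rfl

theorem two_add (x : ZMod 2) : x + x = 0 := by
  revert x
  decide

/-- the integers may be taken squarefree -/
theorem sqf_loc (hLBL : S_LBL) (hT : ∀ p ∈ T, p.Prime) (h2 : 2 ∈ T) (p : T)
    (ρ : Option T → ZMod 2) (y : (Option T → c.V) × (Option T → c.V)) [Fact (p : ℕ).Prime]
    (h : c.Lc ℚ_[p] ρ y) : ∃ (n : ℕ) (s : Fin (2 * c.g + 1) → ℕ), Cop T n ∧ lbl T n = ρ ∧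
      (∀ i, Cop T (s i) ∧ lbl T (s i) = fun o => (y.2 o).1 i) ∧
      (∀ i, Squarefree (c.dz y.1 s i)) ∧ LocJ ℚ_[p] (tw n c.a) (c.dz y.1 s) := by
  obtain ⟨l1, -, -, -, -, l6, -, -⟩ := hLBL T hT h2
  obtain ⟨n, z, hn, hnl, hz, hloc⟩ := h
  choose b s hbs hsq hb using fun i => sqf_part (cop_ne_zero h2 (hz i).1)
  have hdz : ∀ i, s i ∣ z i := fun i => Dvd.intro_left _ (hbs i).symm
  have hdb : ∀ i, b i ∣ z i := fun i => by
    rw [hbs i, pow_two, mul_assoc]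
    exact Dvd.intro _ rfl
  have cs : ∀ i, Cop T (s i) := fun i q hq h => (hz i).1 q hq (h.trans (hdz i))
  have cb : ∀ i, Cop T (b i) := fun i q hq h => (hz i).1 q hq (h.trans (hdb i))
  have cbb : ∀ i, Cop T (b i * b i) := fun i q hq h => by
    rcases (hT q hq).dvd_mul.1 h with h | h
    · exact cb i q hq h
    · exact cb i q hq h
  have hUo : ∀ γ : Option T → ZMod 2, Uo γ ≠ 0 := fun γ => (l6 γ).1.ne_zero
  refine ⟨n, s, hn, hnl, fun i => ⟨cs i, ?_⟩, fun i => ?_, ?_⟩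
  · rw [← (hz i).2, hbs i, pow_two, l1 _ _ (cbb i) (cs i), l1 _ _ (cb i) (cb i)]
    funext o
    simp only [Pi.add_apply]
    rw [two_add, zero_add]
  · unfold Cr.dz
    rw [← Int.squarefree_natAbs, Int.natAbs_mul, Int.natAbs_natCast]
    refine (Nat.squarefree_mul ?_).2 ⟨Int.squarefree_natAbs.2 (l6 _).1, hsq i⟩
    refine Nat.Coprime.symm (Nat.Coprime.symm ?_)
    rw [Nat.coprime_iff_gcd_eq_one]
    by_contra hne
    obtain ⟨q, hq, hqd⟩ := Nat.exists_prime_and_dvd hne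
    have h3 : (q : ℤ) ∣ Uo (fun o => (y.1 o).1 i) :=
      Int.natCast_dvd.2 (hqd.trans (Nat.gcd_dvd_left _ _))
    exact cs i q ((l6 _).2.1 q hq h3) (hqd.trans (Nat.gcd_dvd_right _ _))
  · rw [locJ_iff] at hloc ⊢
    refine LG.congr (fun i => ?_) hloc fun i => ?_
    · have h3 : c.dz y.1 z i ≠ 0 := by
        unfold Cr.dz
        exact mul_ne_zero (hUo _) (by exact_mod_cast cop_ne_zero h2 (hz i).1)
      exact_mod_cast h3
    · refine ⟨((Uo (fun o => (y.1 o).1 i) * (b i : ℤ) * (s i : ℤ) : ℤ) : ℚ_[p]), ?_⟩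
      rw [← Int.cast_mul, ← Int.cast_mul]
      congr 1
      unfold Cr.dz
      have h3 : ((z i : ℕ) : ℤ) = (b i : ℤ) ^ 2 * s i := by
        exact_mod_cast hbs i
      rw [h3]
      ring

end

end Pool.Agent.Q129.JQ
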