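import Pool.Agent.Q129.JQ.Base

/-!
# JQ-GOODL
-/

set_option autoImplicit false
set_option linter.unusedVariables false

namespace Pool.Agent.Q129.JQ

open Finset Q44.JQ
open Pool.Agent.TH344.JG (LocJ SelJ PR df sJ)
open Pool.Agent.Y723.PT (tw dc LG locJ_iff df_tw sJ_tw card_oth)
open Pool.Agent.Y723.JG (goodj nicej)
open Q44.BN (jv jv_prime)
open Q44.TI (ch ch_zero ch_mul)
open scoped Classical

theorem t_GOODL (hLBL : S_LBL) (hTAME : S_TAME) : S_GOODL := by
  intro T hT h2 c p hg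
  have hpp := hT p p.2
  refine ⟨fun ρ y hy => ?_, fun y hy z hz => ?_⟩
  · haveI : Fact (p : ℕ).Prime := ⟨hpp⟩
    obtain ⟨n, s, hn, hnl, hs, hsq, hloc⟩ := sqf_loc c hLBL hT h2 p ρ y hy
    have h3 := goodj (2 * c.g + 1) p (tw n c.a) (c.dz y.1 s) ⟨c.g, rfl⟩ hg.1 (fun k hk => by
      rw [df_tw] at hk
      rcases (Nat.prime_iff_prime_int.1 hpp).dvd_or_dvd hk with h | h
      · exact hn p p.2 (by exact_mod_cast h)
      · exact hg.2 k.1.1 k.1.2 (ne_of_lt k.2) h) hsq hloc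
    refine Subtype.ext (funext fun i => ?_)
    have h4 : ∀ x : ZMod 2, x = 0 ∨ x = 1 := by decide
    rcases h4 ((y.1 (some p)).1 i) with h | h
    · exact h
    · exfalso
      apply h3 i
      rw [dz_eq c p, h]
      have : (1 : ZMod 2).val = 1 := rfl
      rw [this, pow_one]
      exact Dvd.intro _ rfl
  · have hw : ∀ i, (y.1 (some p)).1 i = 0 := by
      intro i
      rw [hy]
      rfl
    have hd : ∀ i, ¬ ((p : ℕ) : ℤ) ∣ c.dz y.1 z i := by
      intro i
      rw [dz_eq c p, hw, ZMod.val_zero, pow_zero, one_mul]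
      exact ut_ndvd c hT p y z i (hz i).1
    have h0 : ∀ a b : ℤ, ¬ ((p : ℕ) : ℤ) ∣ a → ¬ ((p : ℕ) : ℤ) ∣ b → hp p a b = 0 := by
      intro a b ha hb
      have h3 := hTAME p hpp hg.1 0 0 a b ha hb
      rw [pow_zero, one_mul, one_mul, Nat.cast_zero, zero_mul, zero_mul, zero_mul, zero_mul,
        add_zero, add_zero] at h3
      exact h3
    unfold qp
    rw [sum_eq_zero, sum_eq_zero, add_zero]
    · intro i _
      refine h0 _ _ (hd i) ?_
      rw [Prime.dvd_finsetProd_iff (Nat.prime_iff_prime_int.1 hpp)]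
      rintro ⟨j, hj, h⟩
      exact hg.2 i j (mem_erase.1 hj).1.symm h
    · intro i _
      exact sum_eq_zero fun j _ => h0 _ _ (hd i) (hd j)

end Pool.Agent.Q129.JQ
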