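import Pool.Agent.Q129.JQ.Base

/-!
# JQ-NICEL
-/

set_option autoImplicit false
set_option linter.unusedVariables false

namespace Pool.Agent.Q129.JQ

open Finset Q44.JQ
open Pool.Agent.TH344.JG (LocJ SelJ PR df sJ)
open Pool.Agent.Y723.PT (tw dc LG locJ_iff df_tw sJ_tw card_oth)
open Pool.Agent.Y723.JG (goodj nicej)
open Q44.BN (jv jv_prime)
open Q44.TI (ch ch_zero ch_mul)
open scoped Classical

theorem zmod2 (x : ZMod 2) : x = 0 ∨ x = 1 := by
  revert x
  decide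

theorem val_one' : (1 : ZMod 2).val = 1 := rfl

/-- Jacobi symbol one -/
theorem ch_of_jac {p : ℕ} [Fact p.Prime] {z : ℤ} (hz : ¬ (p : ℤ) ∣ z) (h : jacobiSym z p = 1) :
    ch ((z : ℤ) : ZMod p) = 0 := by
  have hp : p.Prime := Fact.out
  rw [← jv_prime hp (zc_ne hz)]
  unfold jv
  rw [if_pos h]

section

variable {T : Finset ℕ} (c : Cr T)

theorem df_ndvd {p : T} {k : PR (2 * c.g + 1)} (hk : c.Nice p k) {l m : Fin (2 * c.g + 1)}
    (hlm : l ≠ m) (h1 : ¬ (l = k.1.1 ∧ m = k.1.2)) (h2 : ¬ (l = k.1.2 ∧ m = k.1.1)) :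
    ¬ ((p : ℕ) : ℤ) ∣ c.a l - c.a m := by
  rcases lt_or_gt_of_ne hlm with h | h
  · refine hk.2.2.2 ⟨(l, m), h⟩ ?_
    rintro rfl
    exact h1 ⟨rfl, rfl⟩
  · intro h3
    refine hk.2.2.2 ⟨(m, l), h⟩ ?_ ?_
    · rintro rfl
      exact h2 ⟨rfl, rfl⟩
    · unfold df
      rw [← neg_sub]
      exact (dvd_neg).2 h3

theorem sJ_ndvd (hT : ∀ p ∈ T, p.Prime) {p : T} {k : PR (2 * c.g + 1)} (hk : c.Nice p k) :
    ¬ ((p : ℕ) : ℤ) ∣ sJ c.a k := by
  unfold sJ
  rw [Prime.dvd_finsetProd_iff (Nat.prime_iff_prime_int.1 (hT p p.2))]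
  rintro ⟨l, hl, h⟩
  rw [mem_filter] at hl
  refine df_ndvd c hk hl.2.1.symm ?_ ?_ h
  · rintro ⟨-, h1⟩
    exact hl.2.2 h1
  · rintro ⟨h1, -⟩
    exact (ne_of_lt k.2) h1

theorem nicel1 (hLBL : S_LBL) (hT : ∀ p ∈ T, p.Prime) (h2 : 2 ∈ T) (p : T)
    (k : PR (2 * c.g + 1)) (hk : c.Nice p k) (ρ : Option T → ZMod 2)
    (y : (Option T → c.V) × (Option T → c.V)) (hy : c.Lp p ρ y) :
    c.Nc p k (c.sgn p k ρ) y := by
  have hpp := hT p p.2
  have hpi := Nat.prime_iff_prime_int.1 hpp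
  haveI : Fact (p : ℕ).Prime := ⟨hpp⟩
  obtain ⟨n, s, hn, hnl, hs, hsq, hloc⟩ := sqf_loc c hLBL hT h2 p ρ y hy
  have hnd : ¬ ((p : ℕ) : ℤ) ∣ ((n : ℕ) : ℤ) := fun h => hn p p.2 (by exact_mod_cast h)
  obtain ⟨g1, g2, g3, g4⟩ := nicej (2 * c.g + 1) p (tw n c.a) (c.dz y.1 s) k ⟨c.g, rfl⟩ hk.1
    (by rw [df_tw]; exact Dvd.dvd.mul_left hk.2.1 _)
    (by
      rw [df_tw]
      intro h
      exact hk.2.2.1 ((IsCoprime.pow_left ((Prime.coprime_iff_not_dvd hpi).2 hnd)).dvd_of_dvd_mul_left h))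
    (fun k' hk' h => by
      rw [df_tw] at h
      rcases hpi.dvd_or_dvd h with h | h
      · exact hnd h
      · exact hk.2.2.2 k' hk' h) hsq hloc
  have hval : ∀ i, (y.1 (some p)).1 i = 0 ∨ ((y.1 (some p)).1 i = 1 ∧
      ((p : ℕ) : ℤ) ∣ c.dz y.1 s i) := by
    intro i
    rcases zmod2 ((y.1 (some p)).1 i) with h | h
    · exact Or.inl h
    · refine Or.inr ⟨h, ?_⟩
      rw [dz_eq c p, h, val_one', pow_one]
      exact Dvd.intro _ rfl
  have hu : ∀ i, ¬ ((p : ℕ) : ℤ) ∣ ut c p y s i := fun i => ut_ndvd c hT p y s i (hs i).1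
  have hcu : ∀ i, ch ((ut c p y s i : ℤ) : ZMod p) = c.un p y i :=
    fun i => ch_ut c hT h2 p hk.1 y s i (hs i).1 (hs i).2
  have hdz0 : ∀ i, (y.1 (some p)).1 i = 0 → c.dz y.1 s i = ut c p y s i := by
    intro i h
    rw [dz_eq c p, h, ZMod.val_zero, pow_zero, one_mul]
  have hdz1 : ∀ i, (y.1 (some p)).1 i = 1 → c.dz y.1 s i = ((p : ℕ) : ℤ) * ut c p y s i := by
    intro i h
    rw [dz_eq c p, h, val_one', pow_one]
  refine ⟨fun l h3 h4 => ?_, ?_⟩
  · rcases hval l with h | ⟨-, h⟩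
    · exact h
    · exact absurd h (g1 l h3 h4)
  · rcases hval k.1.1 with h | ⟨h, hdv⟩
    · have h5 : ¬ ((p : ℕ) : ℤ) ∣ c.dz y.1 s k.1.1 := by
        rw [hdz0 _ h]
        exact hu _
      have h6 : (y.1 (some p)).1 k.1.2 = 0 := by
        rcases hval k.1.2 with h' | ⟨-, h'⟩
        · exact h'
        · exact absurd (g2.2 h') h5
      have h7 := g3 h5
      rw [hdz0 _ h, hdz0 _ h6] at h7
      have h8 : ¬ ((p : ℕ) : ℤ) ∣ ut c p y s k.1.1 * ut c p y s k.1.2 := by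
        intro h9
        rcases hpi.dvd_or_dvd h9 with h9 | h9
        · exact hu _ h9
        · exact hu _ h9
      have h10 := ch_of_jac h8 h7
      rw [Int.cast_mul, ch_mul (zc_ne (hu _)) (zc_ne (hu _)), hcu, hcu] at h10
      rw [h, zero_mul, h10]
    · have h6 : (y.1 (some p)).1 k.1.2 = 1 := by
        rcases zmod2 ((y.1 (some p)).1 k.1.2) with h' | h'
        · exfalso
          have := g2.1 hdv
          rw [hdz0 _ h'] at this
          exact hu _ this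
        · exact h'
      have h7 := g4 hdv
      have hp0 : ((p : ℕ) : ℤ) ≠ 0 := by exact_mod_cast hpp.ne_zero
      rw [hdz1 _ h, hdz1 _ h6, Int.mul_ediv_cancel_left _ hp0, Int.mul_ediv_cancel_left _ hp0,
        sJ_tw] at h7
      have hpw : ¬ ((p : ℕ) : ℤ) ∣ ((n : ℕ) : ℤ) ^
          (univ.filter (fun l => l ≠ k.1.1 ∧ l ≠ k.1.2)).card := fun h9 => hnd (hpi.dvd_of_dvd_pow h9)
      have hsJ := sJ_ndvd c hT hk
      have h8 : ¬ ((p : ℕ) : ℤ) ∣ ut c p y s k.1.1 * ut c p y s k.1.2 * (((n : ℕ) : ℤ) ^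
          (univ.filter (fun l => l ≠ k.1.1 ∧ l ≠ k.1.2)).card * sJ c.a k) := by
        intro h9
        rcases hpi.dvd_or_dvd h9 with h9 | h9
        · rcases hpi.dvd_or_dvd h9 with h9 | h9
          · exact hu _ h9
          · exact hu _ h9
        · rcases hpi.dvd_or_dvd h9 with h9 | h9
          · exact hpw h9
          · exact hsJ h9
      have h10 := ch_of_jac h8 h7
      rw [Int.cast_mul, Int.cast_mul, Int.cast_mul, ch_mul (mul_ne_zero (zc_ne (hu _)) (zc_ne (hu _)))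
        (mul_ne_zero (zc_ne hpw) (zc_ne hsJ)), ch_mul (zc_ne (hu _)) (zc_ne (hu _)),
        ch_mul (zc_ne hpw) (zc_ne hsJ), hcu, hcu] at h10
      have h11 : ch (((((n : ℕ) : ℤ) ^ (univ.filter (fun l => l ≠ k.1.1 ∧ l ≠ k.1.2)).card : ℤ)) :
          ZMod p) = rc p ρ := by
        have h12 : (univ.filter (fun l => l ≠ k.1.1 ∧ l ≠ k.1.2)).card = 2 * (c.g - 1) + 1 := by
          have := card_oth k
          have := c.hg
          omega
        rw [h12, pow_succ, pow_mul', pow_two, Int.cast_mul, ch_mul ?_ (zc_ne hnd),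
          ch_rc hT h2 p hk.1 hn, hnl]
        · have h13 : ch (((((n : ℕ) : ℤ) ^ (c.g - 1) * ((n : ℕ) : ℤ) ^ (c.g - 1) : ℤ)) : ZMod p) = 0 := by
            rw [ch_zero, Int.cast_mul]
            exact ⟨_, rfl⟩
          rw [h13, zero_add]
        · refine zc_ne fun h9 => ?_
          rcases hpi.dvd_or_dvd h9 with h9 | h9
          · exact hnd (hpi.dvd_of_dvd_pow h9)
          · exact hnd (hpi.dvd_of_dvd_pow h9)
      rw [h11] at h10
      rw [h, one_mul]
      unfold Cr.sgn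
      have key : ∀ a b : ZMod 2, a + b = 0 → a = b := by decide
      exact key _ _ h10

/-- the sum over the pairs -/
theorem pairs_sum {n : ℕ} (w h : Fin n → ZMod 2) (cc : ZMod 2) {i j : Fin n} (hij : i < j)
    (hw : ∀ l, l ≠ i → l ≠ j → w l = 0) (hwij : w i = w j) :
    ∑ l, ∑ m ∈ univ.filter (fun m => l < m), (w l * w m * cc + w l * h m + w m * h l) =
      w i * cc + w i * (h i + h j) := by
  have h1 : ∑ l, ∑ m ∈ univ.filter (fun m => l < m), (w l * w m * cc) = w i * cc := by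
    rw [sum_eq_single i]
    · rw [sum_eq_single j]
      · rw [← hwij]
        have : ∀ x y : ZMod 2, x * x * y = x * y := by decide
        exact this _ _
      · intro m hm hmj
        rw [mem_filter] at hm
        rw [hw m hm.2.ne' hmj, mul_zero, zero_mul]
      · intro hj
        exact absurd (mem_filter.2 ⟨mem_univ _, hij⟩) hj
    · intro l _ hl
      by_cases hlj : l = j
      · refine sum_eq_zero fun m hm => ?_
        rw [mem_filter] at hm
        have hlm := hm.2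
        rw [hlj] at hlm
        rw [hw m (ne_of_gt (lt_trans hij hlm)) (ne_of_gt hlm), mul_zero, zero_mul]
      · exact sum_eq_zero fun m _ => by rw [hw l hl hlj, zero_mul, zero_mul]
    · intro hi
      exact absurd (mem_univ _) hi
  have h2 : ∑ l, ∑ m ∈ univ.filter (fun m => l < m), (w l * h m + w m * h l) =
      w i * (h i + h j) := by
    rw [← sum_offdiag (fun l m => w l * h m)]
    have h3 : ∀ l, ∑ m ∈ univ.erase l, w l * h m = w l * (∑ m, h m) + w l * h l := by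
      intro l
      rw [← mul_sum, ← add_sum_erase univ h (mem_univ l)]
      have : ∀ a b d : ZMod 2, a * b = a * (d + b) + a * d := by decide
      exact this _ _ _
    rw [sum_congr rfl fun l _ => h3 l, sum_add_distrib, ← sum_mul]
    have hs : ∀ f : Fin n → ZMod 2, ∑ l, w l * f l = w i * f i + w j * f j := by
      intro f
      rw [← sum_pair hij.ne (f := fun l => w l * f l)]
      symm
      refine sum_subset (subset_univ _) fun l _ hl => ?_
      rw [mem_insert, mem_singleton, not_or] at hl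
      rw [hw l hl.1 hl.2, zero_mul]
    have hs1 := hs (fun _ => 1)
    simp only [mul_one] at hs1
    rw [hs1, hs h, ← hwij]
    have : ∀ a b x y : ZMod 2, (a + a) * b + (a * x + a * y) = a * (x + y) := by decide
    exact this _ _ _ _
  have h3 : ∀ l m, w l * w m * cc + w l * h m + w m * h l =
      w l * w m * cc + (w l * h m + w m * h l) := fun l m => by ring
  simp_rw [h3, sum_add_distrib]
  rw [h1]
  simp_rw [sum_add_distrib] at h2
  rw [h2]

theorem nicel2 (hTAME : S_TAME) (hT : ∀ p ∈ T, p.Prime) (h2 : 2 ∈ T) (p : T)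
    (k : PR (2 * c.g + 1)) (hk : c.Nice p k) (y : (Option T → c.V) × (Option T → c.V))
    (hy : ∀ l, l ≠ k.1.1 → l ≠ k.1.2 → (y.1 (some p)).1 l = 0) (z : Fin (2 * c.g + 1) → ℕ)
    (hz : ∀ i, Cop T (z i) ∧ lbl T (z i) = fun o => (y.2 o).1 i) :
    qp p c.a (c.dz y.1 z) =
      if (y.1 (some p)).1 k.1.1 = 0 then c.un p y k.1.1 + c.un p y k.1.2 else 0 := by
  have hpp := hT p p.2
  have hpi := Nat.prime_iff_prime_int.1 hpp
  haveI : Fact (p : ℕ).Prime := ⟨hpp⟩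
  have hij : k.1.1 < k.1.2 := k.2
  have hp0 : ((p : ℕ) : ℤ) ≠ 0 := by exact_mod_cast hpp.ne_zero
  obtain ⟨w, hw⟩ : ∃ w : Fin (2 * c.g + 1) → ZMod 2, w = (y.1 (some p)).1 := ⟨_, rfl⟩
  have hws : ∑ l, w l = 0 := by
    rw [hw]
    exact (y.1 (some p)).2
  have hw0 : ∀ l, l ≠ k.1.1 → l ≠ k.1.2 → w l = 0 := by
    rw [hw]
    exact hy
  have hwij : w k.1.1 = w k.1.2 := by
    have h3 : ∑ l, w l = w k.1.1 + w k.1.2 := by
      rw [← sum_pair hij.ne (f := w)]
      symm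
      refine sum_subset (subset_univ _) fun l _ hl => ?_
      rw [mem_insert, mem_singleton, not_or] at hl
      exact hw0 l hl.1 hl.2
    rw [h3] at hws
    have key : ∀ a b : ZMod 2, a + b = 0 → a = b := by decide
    exact key _ _ hws
  have hu : ∀ i, ¬ ((p : ℕ) : ℤ) ∣ ut c p y z i := fun i => ut_ndvd c hT p y z i (hz i).1
  have hcu : ∀ i, ch ((ut c p y z i : ℤ) : ZMod p) = c.un p y i :=
    fun i => ch_ut c hT h2 p hk.1 y z i (hz i).1 (hz i).2
  have hcast : ∀ x : ZMod 2, ((x.val : ℕ) : ZMod 2) = x := fun x => ZMod.natCast_zmod_val x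
  -- the symbols of two components
  have s1 : ∀ l m, hp p (c.dz y.1 z l) (c.dz y.1 z m) =
      w l * w m * ch ((-1 : ℤ) : ZMod p) + w l * c.un p y m + w m * c.un p y l := by
    intro l m
    rw [dz_eq c p y z l, dz_eq c p y z m, hTAME p hpp hk.1 _ _ _ _ (hu l) (hu m), hcast, hcast, hcu,
      hcu, hw]
  -- the differences
  obtain ⟨q, hq⟩ := hk.2.1
  have hq' : c.a k.1.1 - c.a k.1.2 = ((p : ℕ) : ℤ) * q := hq
  have hqn : ¬ ((p : ℕ) : ℤ) ∣ q := by
    rintro ⟨r, hr⟩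
    apply hk.2.2.1
    rw [hq, hr, pow_two]
    exact ⟨r, by ring⟩
  obtain ⟨A, hA⟩ : ∃ A : Fin (2 * c.g + 1) → ℤ, A = fun l =>
      ∏ m ∈ univ.filter (fun m => m ≠ k.1.1 ∧ m ≠ k.1.2), (c.a l - c.a m) := ⟨_, rfl⟩
  have hAn1 : ¬ ((p : ℕ) : ℤ) ∣ A k.1.1 := by
    rw [hA]
    exact sJ_ndvd c hT hk
  have hAA : ((A k.1.1 : ℤ) : ZMod p) = ((A k.1.2 : ℤ) : ZMod p) := by
    rw [hA]
    simp only [Int.cast_prod, Int.cast_sub]
    refine prod_congr rfl fun m _ => ?_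
    congr 1
    have h3 : ((c.a k.1.1 - c.a k.1.2 : ℤ) : ZMod p) = 0 := by
      rw [hq']
      push_cast
      rw [ZMod.natCast_self, zero_mul]
    rw [Int.cast_sub, sub_eq_zero] at h3
    exact h3
  have hAn2 : ¬ ((p : ℕ) : ℤ) ∣ A k.1.2 := by
    rw [← ZMod.intCast_zmod_eq_zero_iff_dvd, ← hAA, ZMod.intCast_zmod_eq_zero_iff_dvd]
    exact hAn1
  have herase : ∀ l m, l ≠ m → (l = k.1.1 ∧ m = k.1.2 ∨ l = k.1.2 ∧ m = k.1.1) →
      ∏ j ∈ univ.erase l, (c.a l - c.a j) = (c.a l - c.a m) * A l := by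
    intro l m hlm hc
    rw [← mul_prod_erase (univ.erase l) _ (mem_erase.2 ⟨hlm.symm, mem_univ _⟩), hA]
    congr 1
    refine prod_congr ?_ fun _ _ => rfl
    ext j
    simp only [mem_erase, mem_univ, and_true, mem_filter, true_and]
    rcases hc with ⟨rfl, rfl⟩ | ⟨rfl, rfl⟩
    · exact and_comm
    · exact Iff.rfl
  have hqA1 : ¬ ((p : ℕ) : ℤ) ∣ q * A k.1.1 := fun h => (hpi.dvd_or_dvd h).elim hqn hAn1
  have hqA2 : ¬ ((p : ℕ) : ℤ) ∣ (-1) * (q * A k.1.2) := by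
    intro h
    rw [neg_one_mul, dvd_neg] at h
    exact (hpi.dvd_or_dvd h).elim hqn hAn2
  have s2 : hp p (c.dz y.1 z k.1.1) (∏ j ∈ univ.erase k.1.1, (c.a k.1.1 - c.a j)) =
      w k.1.1 * ch ((-1 : ℤ) : ZMod p) + w k.1.1 * ch ((q * A k.1.1 : ℤ) : ZMod p) +
        c.un p y k.1.1 := by
    have h3 := hTAME p hpp hk.1 ((w k.1.1).val) 1 _ _ (hu k.1.1) hqA1
    rw [hcast, Nat.cast_one, mul_one, one_mul, hcu, pow_one, hw] at h3
    rw [herase k.1.1 k.1.2 hij.ne (Or.inl ⟨rfl, rfl⟩), hq', dz_eq c p, mul_assoc, h3, hw]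
  have s3 : hp p (c.dz y.1 z k.1.2) (∏ j ∈ univ.erase k.1.2, (c.a k.1.2 - c.a j)) =
      w k.1.2 * ch ((-1 : ℤ) : ZMod p) + w k.1.2 * ch (((-1) * (q * A k.1.2) : ℤ) : ZMod p) +
        c.un p y k.1.2 := by
    have h3 := hTAME p hpp hk.1 ((w k.1.2).val) 1 _ _ (hu k.1.2) hqA2
    rw [hcast, Nat.cast_one, mul_one, one_mul, hcu, pow_one, hw] at h3
    have h4 : c.a k.1.2 - c.a k.1.1 = -(((p : ℕ) : ℤ) * q) := by rw [← hq']; ring
    rw [herase k.1.2 k.1.1 hij.ne' (Or.inr ⟨rfl, rfl⟩), h4, dz_eq c p]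
    have h5 : -(((p : ℕ) : ℤ) * q) * A k.1.2 = ((p : ℕ) : ℤ) * ((-1) * (q * A k.1.2)) := by ring
    rw [h5, h3, hw]
  have s4 : ∀ l, l ≠ k.1.1 → l ≠ k.1.2 →
      hp p (c.dz y.1 z l) (∏ j ∈ univ.erase l, (c.a l - c.a j)) = 0 := by
    intro l hl1 hl2
    have hDn : ¬ ((p : ℕ) : ℤ) ∣ ∏ j ∈ univ.erase l, (c.a l - c.a j) := by
      rw [Prime.dvd_finsetProd_iff hpi]
      rintro ⟨j, hj, h⟩
      exact df_ndvd c hk (mem_erase.1 hj).1.symm (fun h' => hl1 h'.1) (fun h' => hl2 h'.1) h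
    have h3 := hTAME p hpp hk.1 0 0 _ _ (hu l) hDn
    rw [pow_zero, one_mul, one_mul, Nat.cast_zero, zero_mul, zero_mul, zero_mul, zero_mul,
      add_zero, add_zero] at h3
    rw [dz_eq c p, hy l hl1 hl2, ZMod.val_zero, pow_zero, one_mul]
    exact h3
  have hsum2 : ∑ l, hp p (c.dz y.1 z l) (∏ j ∈ univ.erase l, (c.a l - c.a j)) =
      w k.1.1 * ch ((-1 : ℤ) : ZMod p) + c.un p y k.1.1 + c.un p y k.1.2 := by
    have h3 : ∑ l, hp p (c.dz y.1 z l) (∏ j ∈ univ.erase l, (c.a l - c.a j)) =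
        hp p (c.dz y.1 z k.1.1) (∏ j ∈ univ.erase k.1.1, (c.a k.1.1 - c.a j)) +
        hp p (c.dz y.1 z k.1.2) (∏ j ∈ univ.erase k.1.2, (c.a k.1.2 - c.a j)) := by
      rw [← sum_pair hij.ne (f := fun l => hp p (c.dz y.1 z l)
        (∏ j ∈ univ.erase l, (c.a l - c.a j)))]
      symm
      refine sum_subset (subset_univ _) fun l _ hl => ?_
      rw [mem_insert, mem_singleton, not_or] at hl
      exact s4 l hl.1 hl.2
    rw [h3, s2, s3, ← hwij]
    have h4 : ch (((-1) * (q * A k.1.2) : ℤ) : ZMod p) =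
        ch ((-1 : ℤ) : ZMod p) + ch ((q * A k.1.1 : ℤ) : ZMod p) := by
      rw [Int.cast_mul (-1) (q * A k.1.2), ch_mul]
      · congr 2
        rw [Int.cast_mul, Int.cast_mul, hAA]
      · refine zc_ne fun h => ?_
        rw [dvd_neg] at h
        have h5 := Int.eq_one_of_dvd_one (by positivity) h
        exact hpp.one_lt.ne' (by exact_mod_cast h5)
      · refine zc_ne fun h => (hpi.dvd_or_dvd h).elim hqn hAn2
    rw [h4]
    have key : ∀ a x b u v : ZMod 2, a * x + a * b + u + (a * x + a * (x + b) + v) =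
        a * x + u + v := by decide
    exact key _ _ _ _ _
  unfold qp
  rw [hsum2, sum_congr rfl fun l _ => sum_congr rfl fun m _ => s1 l m,
    pairs_sum w (fun l => c.un p y l) _ hij hw0 hwij]
  have key : ∀ a x u v : ZMod 2, a * x + a * (u + v) + (a * x + u + v) =
      if a = 0 then u + v else 0 := by decide
  rw [key, hw]

end

theorem t_NICEL (hLBL : S_LBL) (hTAME : S_TAME) : S_NICEL := by
  intro T hT h2 c p k hk
  exact ⟨fun ρ y hy => nicel1 c hLBL hT h2 p k hk ρ y hy,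
    fun y hy z hz => nicel2 c hTAME hT h2 p k hk y hy z hz⟩

end Pool.Agent.Q129.JQ
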