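import Pool.Agent.Q44.JQ.StmD

/-!
# JQ-SQM: the density of the squarefree numbers in a residue class
-/

set_option autoImplicit false

open scoped Classical Topology
open Finset Filter ArithmeticFunction
open scoped ArithmeticFunction.Moebius

namespace Pool.Agent.Q129.JQ

/-- Moebius and squarefree numbers -/
theorem sum_moebius_sq {n N : ℕ} (hn : n ≠ 0) (hN : n ≤ N) :
    ∑ d ∈ (Icc 1 N).filter (fun d => d ^ 2 ∣ n), (μ d : ℝ) = if Squarefree n then 1 else 0 := by
  obtain ⟨s, b, h1, h2⟩ := Nat.sq_mul_squarefree n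
  have hb : b ≠ 0 := by
    rintro rfl
    apply hn
    rw [← h1]
    ring
  have hs : s ≠ 0 := h2.ne_zero
  have h3 : ∀ d : ℕ, d ^ 2 ∣ n ↔ d ∣ b := by
    intro d
    constructor
    · intro h
      rw [← h1] at h
      by_cases hd : d = 0
      · subst hd
        rw [zero_pow two_ne_zero, zero_dvd_iff] at h
        exact absurd h (mul_ne_zero (pow_ne_zero 2 hb) hs)
      rw [← Nat.factorization_le_iff_dvd hd hb]
      rw [← Nat.factorization_le_iff_dvd (pow_ne_zero 2 hd) (mul_ne_zero (pow_ne_zero 2 hb) hs),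
        Nat.factorization_mul (pow_ne_zero 2 hb) hs, Nat.factorization_pow,
        Nat.factorization_pow] at h
      intro p
      have h4 := h p
      have h5 := (Nat.squarefree_iff_factorization_le_one hs).1 h2 p
      simp only [Finsupp.coe_smul, Finsupp.coe_add, Pi.smul_apply, Pi.add_apply,
        smul_eq_mul] at h4
      omega
    · intro h
      rw [← h1]
      exact (pow_dvd_pow_of_dvd h 2).mul_right s
  have h4 : (Icc 1 N).filter (fun d => d ^ 2 ∣ n) = b.divisors := by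
    ext d
    rw [mem_filter, mem_Icc, h3, Nat.mem_divisors]
    constructor
    · rintro ⟨-, h⟩
      exact ⟨h, hb⟩
    · rintro ⟨h, -⟩
      refine ⟨⟨Nat.pos_of_dvd_of_pos h (Nat.pos_of_ne_zero hb), ?_⟩, h⟩
      have h5 := Nat.le_of_dvd (Nat.pos_of_ne_zero hb) h
      have h6 : b ≤ n := by
        rw [← h1]
        calc b ≤ b * b := Nat.le_mul_self b
          _ = b ^ 2 * 1 := by ring
          _ ≤ b ^ 2 * s := Nat.mul_le_mul_left _ (Nat.pos_of_ne_zero hs)
      omega
  rw [h4]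
  have h5 : ∑ d ∈ b.divisors, (μ d : ℝ) = ((∑ d ∈ b.divisors, μ d : ℤ) : ℝ) := by
    push_cast
    rfl
  have h6 : (∑ d ∈ b.divisors, μ d : ℤ) = if b = 1 then 1 else 0 := by
    rw [← coe_mul_zeta_apply, moebius_mul_coe_zeta, one_apply]
  rw [h5, h6]
  have h7 : Squarefree n ↔ b = 1 := by
    constructor
    · intro h
      have h8 : b * b ∣ n := by
        rw [← h1, pow_two]
        exact Dvd.intro _ rfl
      exact Nat.isUnit_iff.1 (h b h8)
    · rintro rfl
      rw [one_pow, one_mul] at h1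
      rw [← h1]
      exact h2
  by_cases h : b = 1
  · rw [if_pos h, if_pos (h7.2 h)]
    norm_num
  · rw [if_neg h, if_neg fun h' => h (h7.1 h')]
    norm_num

/-- the number of the elements of a residue class -/
theorem count_res (M : ℕ) (hM : 0 < M) (v X : ℕ) :
    |(((Ioc 0 X).filter (fun n => n ≡ v [MOD M])).card : ℝ) - X / M| ≤ 1 := by
  have h1 := Nat.Ioc_filter_modEq_card 0 X hM v
  have hle : ⌊((0 : ℕ) - (v : ℚ)) / (M : ℚ)⌋ ≤ ⌊((X : ℕ) - (v : ℚ)) / (M : ℚ)⌋ := by
    apply Int.floor_le_floor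
    apply div_le_div_of_nonneg_right _ (by positivity)
    have : (0 : ℚ) ≤ X := by positivity
    push_cast
    linarith
  rw [max_eq_left (by linarith)] at h1
  have h2 : ((((Ioc 0 X).filter (fun n => n ≡ v [MOD M])).card : ℤ) : ℚ) =
      ⌊((X : ℕ) - (v : ℚ)) / (M : ℚ)⌋ - ⌊((0 : ℕ) - (v : ℚ)) / (M : ℚ)⌋ := by
    rw [h1]
    push_cast
    rfl
  have f1 := Int.floor_le (((X : ℕ) - (v : ℚ)) / (M : ℚ))
  have f2 := Int.lt_floor_add_one (((X : ℕ) - (v : ℚ)) / (M : ℚ))
  have f3 := Int.floor_le (((0 : ℕ) - (v : ℚ)) / (M : ℚ))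
  have f4 := Int.lt_floor_add_one (((0 : ℕ) - (v : ℚ)) / (M : ℚ))
  have h3 : |((((Ioc 0 X).filter (fun n => n ≡ v [MOD M])).card : ℤ) : ℚ) - X / M| ≤ 1 := by
    rw [h2, abs_le]
    have e1 : ((X : ℕ) - (v : ℚ)) / (M : ℚ) = X / M - v / M := by ring
    have e2 : ((0 : ℕ) - (v : ℚ)) / (M : ℚ) = - (v / M) := by
      push_cast
      ring
    rw [e1] at f1 f2 ⊢
    rw [e2] at f3 f4 ⊢
    constructor <;> linarith
  have h4 : |((((Ioc 0 X).filter (fun n => n ≡ v [MOD M])).card : ℝ)) - X / M| =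
      ((|((((Ioc 0 X).filter (fun n => n ≡ v [MOD M])).card : ℤ) : ℚ) - X / M| : ℚ) : ℝ) := by
    push_cast
    rfl
  rw [h4]
  exact_mod_cast h3

theorem tendsto_res (M : ℕ) (hM : 0 < M) (v : ℕ) :
    Tendsto (fun X : ℕ => (((Ioc 0 X).filter (fun n => n ≡ v [MOD M])).card : ℝ) / X) atTop
      (𝓝 (1 / M)) := by
  rw [tendsto_iff_norm_sub_tendsto_zero]
  refine squeeze_zero' (Eventually.of_forall fun X => norm_nonneg _) ?_
    tendsto_one_div_atTop_nhds_zero_nat
  filter_upwards [eventually_gt_atTop 0] with X hX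
  have hX' : (0 : ℝ) < X := by exact_mod_cast hX
  have hM' : (0 : ℝ) < M := by exact_mod_cast hM
  have h1 := count_res M hM v X
  have h2 : (((Ioc 0 X).filter (fun n => n ≡ v [MOD M])).card : ℝ) / X - 1 / M =
      ((((Ioc 0 X).filter (fun n => n ≡ v [MOD M])).card : ℝ) - X / M) / X := by
    field_simp
  rw [h2, norm_div, Real.norm_eq_abs, Real.norm_eq_abs, abs_of_pos hX']
  exact div_le_div_of_nonneg_right h1 hX'.le

/-- the numbers divisible by `d ^ 2` in the class -/
noncomputable def cd (m a d X : ℕ) : ℕ :=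
  ((Ioc 0 X).filter fun n => d ^ 2 ∣ n ∧ n % m = a % m).card

theorem cd_le (m a d X : ℕ) (hX : 0 < X) : (cd m a d X : ℝ) / X ≤ 1 / (d : ℝ) ^ 2 := by
  have h1 : cd m a d X ≤ X / d ^ 2 := by
    unfold cd
    rw [← Nat.Ioc_filter_dvd_card_eq_div]
    exact card_le_card fun n hn => by
      rw [mem_filter] at hn ⊢
      exact ⟨hn.1, hn.2.1⟩
  have h2 : ((X / d ^ 2 : ℕ) : ℝ) ≤ (X : ℝ) / ((d ^ 2 : ℕ) : ℝ) := Nat.cast_div_le
  have hX' : (0 : ℝ) < X := by exact_mod_cast hX
  rw [div_le_iff₀ hX']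
  calc (cd m a d X : ℝ) ≤ ((X / d ^ 2 : ℕ) : ℝ) := by exact_mod_cast h1
    _ ≤ (X : ℝ) / ((d ^ 2 : ℕ) : ℝ) := h2
    _ = 1 / (d : ℝ) ^ 2 * X := by push_cast; ring

theorem cd_tendsto {m a d : ℕ} (hm : 0 < m) (ha : a.Coprime m) (hd : 0 < d) :
    Tendsto (fun X : ℕ => (cd m a d X : ℝ) / X) atTop
      (𝓝 (if d.Coprime m then 1 / (m * (d : ℝ) ^ 2) else 0)) := by
  by_cases h : d.Coprime m
  · rw [if_pos h]
    have hc : Nat.Coprime (d ^ 2) m := Nat.Coprime.pow_left 2 h
    obtain ⟨r, hr1, hr2⟩ := Nat.chineseRemainder hc 0 a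
    have h1 : ∀ X, cd m a d X = ((Ioc 0 X).filter (fun n => n ≡ r [MOD (d ^ 2 * m)])).card := by
      intro X
      unfold cd
      congr 1
      refine filter_congr fun n _ => ?_
      rw [← Nat.modEq_and_modEq_iff_modEq_mul hc]
      constructor
      · rintro ⟨h2, h3⟩
        exact ⟨((Nat.modEq_zero_iff_dvd.2 h2).trans hr1.symm), Nat.ModEq.trans h3 hr2.symm⟩
      · rintro ⟨h2, h3⟩
        exact ⟨Nat.modEq_zero_iff_dvd.1 (h2.trans hr1), h3.trans hr2⟩
    have h2 := tendsto_res (d ^ 2 * m) (Nat.mul_pos (pow_pos hd 2) hm) r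
    have h3 : (1 : ℝ) / ((d ^ 2 * m : ℕ) : ℝ) = 1 / (m * (d : ℝ) ^ 2) := by
      push_cast
      ring
    rw [h3] at h2
    refine h2.congr fun X => ?_
    rw [h1]
  · rw [if_neg h]
    have h1 : ∀ X, cd m a d X = 0 := by
      intro X
      unfold cd
      rw [card_eq_zero, filter_eq_empty_iff]
      rintro n - ⟨h2, h3⟩
      apply h
      have h4 : n.Coprime m := by
        rw [Nat.coprime_iff_gcd_eq_one, Nat.gcd_comm, Nat.gcd_rec, h3, ← Nat.gcd_rec, Nat.gcd_comm]
        exact ha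
      exact Nat.Coprime.coprime_dvd_left ((Dvd.intro _ (pow_two d).symm).trans h2) h4
    simp only [h1, Nat.cast_zero, zero_div]
    exact tendsto_const_nhds

theorem card_eq_sum (m a X : ℕ) :
    (((Icc 1 X).filter fun n => Squarefree n ∧ n % m = a % m).card : ℝ) =
      ∑ d ∈ Icc 1 X, (μ d : ℝ) * cd m a d X := by
  have h1 : (((Icc 1 X).filter fun n => Squarefree n ∧ n % m = a % m).card : ℝ) =
      ∑ n ∈ Icc 1 X, if n % m = a % m then
        ∑ d ∈ (Icc 1 X).filter (fun d => d ^ 2 ∣ n), (μ d : ℝ) else 0 := by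
    rw [card_filter, Nat.cast_sum]
    refine sum_congr rfl fun n hn => ?_
    rw [mem_Icc] at hn
    by_cases h : n % m = a % m
    · rw [if_pos h, sum_moebius_sq (by omega) hn.2]
      by_cases h' : Squarefree n
      · rw [if_pos ⟨h', h⟩, if_pos h', Nat.cast_one]
      · rw [if_neg fun h'' => h' h''.1, if_neg h', Nat.cast_zero]
    · rw [if_neg h, if_neg fun h'' => h h''.2, Nat.cast_zero]
  rw [h1]
  have h2 : ∀ n ∈ Icc 1 X, (if n % m = a % m then
      ∑ d ∈ (Icc 1 X).filter (fun d => d ^ 2 ∣ n), (μ d : ℝ) else 0) =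
      ∑ d ∈ Icc 1 X, if d ^ 2 ∣ n ∧ n % m = a % m then (μ d : ℝ) else 0 := by
    intro n _
    by_cases h : n % m = a % m
    · rw [if_pos h, sum_filter]
      exact sum_congr rfl fun d _ => by simp only [h, and_true]
    · rw [if_neg h]
      symm
      exact sum_eq_zero fun d _ => if_neg fun h' => h h'.2
  rw [sum_congr rfl h2, sum_comm]
  refine sum_congr rfl fun d _ => ?_
  unfold cd
  have h3 : Ioc 0 X = Icc 1 X := by
    ext n
    rw [mem_Ioc, mem_Icc]
    omega
  rw [h3, card_filter, Nat.cast_sum, mul_sum]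
  refine sum_congr rfl fun n _ => ?_
  split_ifs <;> simp

theorem mu_le (d : ℕ) : |(μ d : ℝ)| ≤ 1 := by
  have := abs_moebius_le_one (n := d)
  exact_mod_cast this

/-- the density -/
noncomputable def dens (m : ℕ) : ℝ :=
  ∑' d : ℕ, (μ d : ℝ) * (if d.Coprime m then 1 / (m * (d : ℝ) ^ 2) else 0)

theorem main_tendsto {m a : ℕ} (hm : 0 < m) (ha : a.Coprime m) :
    Tendsto (fun X : ℕ => (((Icc 1 X).filter fun n => Squarefree n ∧ n % m = a % m).card : ℝ) / X)
      atTop (𝓝 (dens m)) := by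
  have h1 : ∀ X : ℕ, 0 < X →
      (((Icc 1 X).filter fun n => Squarefree n ∧ n % m = a % m).card : ℝ) / X =
      ∑' d : ℕ, (μ d : ℝ) * ((cd m a d X : ℝ) / X) := by
    intro X hX
    rw [card_eq_sum, sum_div, tsum_eq_sum (s := Icc 1 X)]
    · exact sum_congr rfl fun d _ => by rw [mul_div_assoc]
    · intro d hd
      rw [mem_Icc, not_and_or] at hd
      rcases hd with hd | hd
      · have : d = 0 := by omega
        rw [this]
        simp
      · have h2 : cd m a d X = 0 := by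
          unfold cd
          rw [card_eq_zero, filter_eq_empty_iff]
          rintro n hn ⟨h2, -⟩
          rw [mem_Ioc] at hn
          have h3 := Nat.le_of_dvd hn.1 h2
          have h4 : d ≤ d ^ 2 := Nat.le_self_pow two_ne_zero d
          omega
        rw [h2]
        simp
  have h2 : Tendsto (fun X : ℕ => ∑' d : ℕ, (μ d : ℝ) * ((cd m a d X : ℝ) / X)) atTop
      (𝓝 (dens m)) := by
    unfold dens
    refine tendsto_tsum_of_dominated_convergence (bound := fun d : ℕ => 1 / (d : ℝ) ^ 2) ?_ ?_ ?_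
    · exact Real.summable_one_div_nat_pow.2 one_lt_two
    · intro d
      rcases Nat.eq_zero_or_pos d with rfl | hd
      · simp
      · exact (cd_tendsto hm ha hd).const_mul _
    · filter_upwards [eventually_gt_atTop 0] with X hX
      intro d
      rw [norm_mul, Real.norm_eq_abs, Real.norm_eq_abs]
      have h3 : |(cd m a d X : ℝ) / X| = (cd m a d X : ℝ) / X := abs_of_nonneg (by positivity)
      rw [h3]
      calc |(μ d : ℝ)| * ((cd m a d X : ℝ) / X) ≤ 1 * ((cd m a d X : ℝ) / X) :=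
            mul_le_mul_of_nonneg_right (mu_le d) (by positivity)
        _ ≤ 1 / (d : ℝ) ^ 2 := by
            rw [one_mul]
            exact cd_le m a d X hX
  refine h2.congr' ?_
  filter_upwards [eventually_gt_atTop 0] with X hX
  rw [h1 X hX]

theorem dens_pos {m : ℕ} (hm : 0 < m) : 0 < dens m := by
  have hm' : (0 : ℝ) < m := by exact_mod_cast hm
  have hz := hasSum_zeta_two
  have hs : Summable fun d : ℕ => 1 / (d : ℝ) ^ 2 := hz.summable
  -- the terms
  have hb : ∀ d : ℕ, |(μ d : ℝ) * (if d.Coprime m then 1 / (m * (d : ℝ) ^ 2) else 0)| ≤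
      1 / m * (1 / (d : ℝ) ^ 2) := by
    intro d
    rw [abs_mul]
    have h1 : |(if d.Coprime m then 1 / (m * (d : ℝ) ^ 2) else 0 : ℝ)| ≤
        1 / m * (1 / (d : ℝ) ^ 2) := by
      split_ifs
      · rw [abs_of_nonneg (by positivity)]
        apply le_of_eq
        rw [one_div_mul_one_div]
      · rw [abs_zero]
        positivity
    calc _ ≤ 1 * |(if d.Coprime m then 1 / (m * (d : ℝ) ^ 2) else 0 : ℝ)| :=
          mul_le_mul_of_nonneg_right (mu_le d) (abs_nonneg _)
      _ ≤ _ := by rw [one_mul]; exact h1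
  have hsum : Summable fun d : ℕ => (μ d : ℝ) * (if d.Coprime m then 1 / (m * (d : ℝ) ^ 2) else 0) :=
    Summable.of_norm_bounded (hs.mul_left (1 / (m : ℝ))) hb
  unfold dens
  -- lower bound
  have hg : ∀ d : ℕ, (if d = 1 then 2 / (m : ℝ) else 0) - 1 / m * (1 / (d : ℝ) ^ 2) ≤
      (μ d : ℝ) * (if d.Coprime m then 1 / (m * (d : ℝ) ^ 2) else 0) := by
    intro d
    by_cases h : d = 1
    · subst h
      rw [if_pos rfl, if_pos (Nat.coprime_one_left m), moebius_apply_one]
      apply le_of_eq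
      push_cast
      field_simp
      ring
    · rw [if_neg h, zero_sub]
      exact (abs_le.1 (hb d)).1
  have hs1 : HasSum (fun d : ℕ => if d = 1 then 2 / (m : ℝ) else 0) (2 / (m : ℝ)) :=
    hasSum_ite_eq 1 _
  have hs2 := hs1.sub (hz.mul_left (1 / (m : ℝ)))
  have h3 := hasSum_le hg hs2 hsum.hasSum
  refine lt_of_lt_of_le ?_ h3
  have hpi : Real.pi ^ 2 < 12 := by
    have h4 := Real.pi_lt_d2
    have h5 := Real.pi_pos
    nlinarith
  have h6 : 2 / (m : ℝ) - 1 / m * (Real.pi ^ 2 / 6) = (2 - Real.pi ^ 2 / 6) / m := by ring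
  rw [h6]
  apply div_pos _ hm'
  linarith

theorem t_SQM : Q44.JQ.S_SQM := fun _ hm => ⟨_, dens_pos hm, fun _ ha => main_tendsto hm ha⟩

end Pool.Agent.Q129.JQ
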